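import Mathlib
import Pool.Agent.R440.WZ
import Pool.Agent.R440.Loc

/-!
# Integrality of the normalised (35k+8) sums

A WZ pair gives `a_n = ∑_{i<n} t(i, n-1-i)` with
`t(i,m) = 27^i (i+m+1)! (2i+2m+2)! (i+4m)! / ((i+m)! (2i+2m+3)! m!² (i+2m+1)!)`.
By Legendre's formula `t(i,m)` is `p`-integral if `p ∤ 2n+1`.  If `p ∣ 2n+1`, `p ≠ 3`, we use
a second form `a_n = - A(n,0) + ∑ E(i, n-1-i)` obtained from the first one by subtracting a
telescoping sum (`t(i,m)` telescopes modulo `2n+1`).  At `p = 3` only the first term can fail to be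
integral, and it does so exactly when `2n+1` is a power of `3`.
-/

set_option autoImplicit false

namespace Pool.Agent.Results.MP_1a5975_nt.Integrality

open Finset Nat Pool.Agent.R440

/-- the summands of the transformed sum -/
noncomputable def T (n i : ℕ) : ℚ :=
  4 * n ^ 2 * ((2 * n)! : ℚ) / (n ! : ℚ) ^ 2 * 27 ^ i * ((4 * n - 4 - 3 * i)! : ℚ) *
    rf ((n : ℤ) - 1 - i) ^ 2 * rf (2 * (n : ℤ) - 1 - i)

/-- the certificate -/
noncomputable def R (n i : ℕ) : ℚ :=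
  - (4 * ((2 * n)! : ℚ) / (n ! : ℚ) ^ 2) * 27 ^ i * ((4 * n - 1 - 3 * i)! : ℚ) *
    rf ((n : ℤ) - i) ^ 2 * rf (2 * (n : ℤ) + 1 - i) *
    (n * (2 * n + 1) * (35 * n + 8) - (147 * n ^ 2 + 72 * n + 6) * i + (108 * n + 27) * i ^ 2
      - 27 * i ^ 3)

theorem wz (n i : ℕ) (hn : 1 ≤ n) (hi : i ≤ n) : T (n + 1) i - 81 * T n i = R n (i + 1) - R n i := by
  unfold T R
  have e1 : rf (((n + 1 : ℕ) : ℤ) - 1 - i) = rf ((n : ℤ) - i) := by
    congr 1; push_cast; ring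
  have e2 : rf (2 * ((n + 1 : ℕ) : ℤ) - 1 - i) = rf (2 * (n : ℤ) + 1 - i) := by
    congr 1; push_cast; ring
  have e3 : rf ((n : ℤ) - 1 - i) = ((n : ℚ) - i) * rf ((n : ℤ) - i) := by
    rw [rf_step, show (n : ℤ) - 1 - i + 1 = (n : ℤ) - i by ring]; push_cast; ring
  have e4 : rf (2 * (n : ℤ) - 1 - i) = (2 * (n : ℚ) - i) * (2 * (n : ℚ) + 1 - i) * rf (2 * (n : ℤ) + 1 - i) := by
    rw [rf_step, show 2 * (n : ℤ) - 1 - i + 1 = 2 * (n : ℤ) - i by ring, rf_step (2 * (n : ℤ) - i),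
      show 2 * (n : ℤ) - i + 1 = 2 * (n : ℤ) + 1 - i by ring]
    push_cast; ring
  have e5 : rf ((n : ℤ) - (i + 1 : ℕ)) = ((n : ℚ) - i) * rf ((n : ℤ) - i) := by
    rw [← e3]; congr 1; push_cast; ring
  have e6 : rf (2 * (n : ℤ) + 1 - (i + 1 : ℕ)) = (2 * (n : ℚ) + 1 - i) * rf (2 * (n : ℤ) + 1 - i) := by
    rw [show 2 * (n : ℤ) + 1 - (i + 1 : ℕ) = 2 * (n : ℤ) - i by push_cast; ring, rf_step,
      show 2 * (n : ℤ) - i + 1 = 2 * (n : ℤ) + 1 - i by ring]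
    push_cast; ring
  have f1 : ((2 * (n + 1))! : ℚ) = (2 * n + 2) * (2 * n + 1) * ((2 * n)! : ℚ) := by
    rw [show 2 * (n + 1) = 2 * n + 1 + 1 by ring, Nat.factorial_succ, Nat.factorial_succ]
    push_cast; ring
  have f2 : ((n + 1)! : ℚ) = (n + 1) * (n ! : ℚ) := by
    rw [Nat.factorial_succ]; push_cast; ring
  have f3 : ((4 * (n + 1) - 4 - 3 * i)! : ℚ) = (4 * n - 3 * i) * ((4 * n - 1 - 3 * i)! : ℚ) := by
    obtain ⟨j, hj⟩ : ∃ j, 4 * n - 1 - 3 * i = j := ⟨_, rfl⟩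
    have hj2 : 4 * (n + 1) - 4 - 3 * i = j + 1 := by omega
    have hj3 : (4 * (n : ℚ) - 3 * i) = j + 1 := by
      have : 4 * n = j + 1 + 3 * i := by omega
      have : (4 * (n : ℚ)) = j + 1 + 3 * i := by exact_mod_cast this
      linarith
    rw [hj, hj2, Nat.factorial_succ, hj3]; push_cast; ring
  have z1 : (n ! : ℚ) ≠ 0 := by positivity
  have z4 : ((n : ℚ) + 1) ≠ 0 := by positivity
  rcases hi.lt_or_eq with hlt | heq
  · have f4 : ((4 * n - 1 - 3 * i)! : ℚ) = (4 * n - 1 - 3 * i) * (4 * n - 2 - 3 * i) *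
        (4 * n - 3 - 3 * i) * ((4 * n - 4 - 3 * i)! : ℚ) := by
      obtain ⟨j, hj⟩ : ∃ j, 4 * n - 4 - 3 * i = j := ⟨_, rfl⟩
      have hj2 : 4 * n - 1 - 3 * i = j + 1 + 1 + 1 := by omega
      have hj3 : (4 * (n : ℚ)) = j + 4 + 3 * i := by
        have : 4 * n = j + 4 + 3 * i := by omega
        exact_mod_cast this
      rw [hj, hj2, Nat.factorial_succ, Nat.factorial_succ, Nat.factorial_succ, hj3]
      push_cast; ring
    have f5 : ((4 * n - 1 - 3 * (i + 1))! : ℚ) = ((4 * n - 4 - 3 * i)! : ℚ) := by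
      congr 2; omega
    rw [e1, e2, e3, e4, e5, e6, f1, f2, f3, f5, f4, pow_succ (27 : ℚ) i]
    push_cast
    field_simp
    ring
  · subst heq
    rw [e1, e2, e3, e4, e5, e6, f1, f2, f3, pow_succ (27 : ℚ) i]
    push_cast
    field_simp
    ring

/-- the multinomial coefficient `(4k)!/(k!)^4` -/
noncomputable def M (k : ℕ) : ℚ := ((4 * k)! : ℚ) / (k ! : ℚ) ^ 4

/-- the numbers `a_n` -/
noncomputable def a (n : ℕ) : ℚ :=
  (∑ k ∈ range n, (35 * (k : ℚ) + 8) * M k * 81 ^ (n - 1 - k)) /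
    (4 * n * (2 * n + 1) * ((2 * n).choose n : ℚ))

theorem R_zero (n : ℕ) (hn : 1 ≤ n) : R n 0 = - ((35 * (n : ℚ) + 8) * M n) := by
  have h1 : rf ((n : ℤ) - (0 : ℕ)) = 1 / (n ! : ℚ) := by
    rw [← rf_nat n]; simp
  have h2 : rf (2 * (n : ℤ) + 1 - (0 : ℕ)) = 1 / ((2 * n + 1) * ((2 * n)! : ℚ)) := by
    rw [show 2 * (n : ℤ) + 1 - (0 : ℕ) = ((2 * n + 1 : ℕ) : ℤ) by push_cast; ring, rf_nat,
      Nat.factorial_succ]
    push_cast; rfl
  have h3 : ((4 * n)! : ℚ) = (4 * n) * ((4 * n - 1 - 3 * 0)! : ℚ) := by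
    obtain ⟨j, hj⟩ : ∃ j, 4 * n - 1 - 3 * 0 = j := ⟨_, rfl⟩
    have hj3 : (4 * (n : ℚ)) = j + 1 := by
      have : 4 * n = j + 1 := by omega
      exact_mod_cast this
    rw [hj, show 4 * n = j + 1 by omega, Nat.factorial_succ, hj3]
    push_cast; ring
  unfold R M
  rw [h1, h2, h3]
  have z2 : (n ! : ℚ) ≠ 0 := by positivity
  have z3 : ((2 * n)! : ℚ) ≠ 0 := by positivity
  have z4 : (2 * (n : ℚ) + 1) ≠ 0 := by positivity
  simp only [Nat.cast_zero, mul_zero, pow_zero]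
  field_simp
  ring

theorem R_top (n : ℕ) : R n (n + 1) = 0 := by
  unfold R
  rw [rf_neg (by push_cast; omega : (n : ℤ) - ((n + 1 : ℕ) : ℤ) < 0)]
  ring

theorem T_top (n : ℕ) : T n n = 0 := by
  unfold T
  rw [rf_neg (by omega : (n : ℤ) - 1 - n < 0)]
  ring

theorem T_one : T 1 0 = (35 * ((0 : ℕ) : ℚ) + 8) * M 0 := by
  have h1 : rf (((1 : ℕ) : ℤ) - 1 - (0 : ℕ)) = 1 := by
    rw [show ((1 : ℕ) : ℤ) - 1 - (0 : ℕ) = 0 by norm_num]; exact rf_zero
  have h2 : rf (2 * ((1 : ℕ) : ℤ) - 1 - (0 : ℕ)) = 1 := by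
    rw [show 2 * ((1 : ℕ) : ℤ) - 1 - (0 : ℕ) = ((1 : ℕ) : ℤ) by norm_num, rf_nat]; simp
  unfold T M
  rw [h1, h2]
  norm_num [Nat.factorial]

/-- the terms, indexed by `i` and `m = n - 1 - i` -/
noncomputable def t (i m : ℕ) : ℚ :=
  27 ^ i * (((i + m + 1)! : ℚ) * ((2 * i + 2 * m + 2)! : ℚ) * ((i + 4 * m)! : ℚ) /
    (((i + m)! : ℚ) * ((2 * i + 2 * m + 3)! : ℚ) * ((m)! : ℚ) * ((m)! : ℚ) *
      ((i + 2 * m + 1)! : ℚ)))

theorem a_eq (n : ℕ) (hn : 1 ≤ n) : a n = ∑ i ∈ range n, t i (n - 1 - i) := by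
  have hS := wz_sum' 81 (fun k => (35 * (k : ℚ) + 8) * M k) T R (fun n k h1 h2 => wz n k h1 h2)
    R_zero (fun n _ => R_top n) (fun n _ => T_top n) T_one n hn
  have hc : (0 : ℚ) < 4 * n * (2 * n + 1) * ((2 * n).choose n : ℚ) := by
    have h1 : 0 < (2 * n).choose n := Nat.choose_pos (by omega)
    positivity
  unfold a
  rw [hS, div_eq_iff hc.ne', Finset.sum_mul]
  refine Finset.sum_congr rfl fun i hi => ?_
  have hi' := Finset.mem_range.mp hi
  obtain ⟨m, hm⟩ : ∃ m, n = i + m + 1 := ⟨n - 1 - i, by omega⟩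
  subst hm
  have h1 : rf (((i + m + 1 : ℕ) : ℤ) - 1 - i) = 1 / (m ! : ℚ) := by
    rw [show ((i + m + 1 : ℕ) : ℤ) - 1 - i = (m : ℤ) by push_cast; ring, rf_nat]
  have h2 : rf (2 * ((i + m + 1 : ℕ) : ℤ) - 1 - i) = 1 / ((i + 2 * m + 1)! : ℚ) := by
    rw [show 2 * ((i + m + 1 : ℕ) : ℤ) - 1 - i = ((i + 2 * m + 1 : ℕ) : ℤ) by push_cast; ring, rf_nat]
  have h3 : 4 * (i + m + 1) - 4 - 3 * i = i + 4 * m := by omega
  have h4 : i + m + 1 - 1 - i = m := by omega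
  have h5 : 2 * (i + m + 1) = 2 * i + 2 * m + 2 := by ring
  unfold T t
  rw [h1, h2, h3, h4, choose_two_mul, h5, Nat.factorial_succ (2 * i + 2 * m + 2),
    Nat.factorial_succ (i + m)]
  have z1 : (m ! : ℚ) ≠ 0 := by positivity
  have z2 : ((i + m)! : ℚ) ≠ 0 := by positivity
  have z3 : ((2 * i + 2 * m + 2)! : ℚ) ≠ 0 := by positivity
  have z4 : ((i + 2 * m + 1)! : ℚ) ≠ 0 := by positivity
  have z5 : ((i : ℚ) + m + 1) ≠ 0 := by positivity
  have z6 : (2 * (i : ℚ) + 2 * m + 3) ≠ 0 := by positivity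
  have z7 : (2 * (i : ℚ) + 2 * m + 2 + 1) ≠ 0 := by positivity
  push_cast
  field_simp

/-- boundary terms of the second transformation -/
noncomputable def A (n i : ℕ) : ℚ :=
  4 / 3 * 27 ^ i * n * ((4 * n - 1 - 3 * i)! : ℚ) * rf ((n : ℤ) - 1 - i) ^ 2 *
    rf (2 * (n : ℤ) - i) / (2 * n + 1)

/-- the terms of the second transformation -/
noncomputable def E (i m : ℕ) : ℚ :=
  27 ^ i * (2 * (i : ℚ) + 2 * m + 5) * ((i : ℚ) + 10 * m + 2) / 3 *
    (((i + m + 1)! : ℚ) * ((i + 4 * m)! : ℚ) /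
      (((i + m)! : ℚ) * ((m)! : ℚ) * ((m)! : ℚ) * ((i + 2 * m + 2)! : ℚ)))

theorem t_eq (i m : ℕ) : t i m = A (i + m + 1) (i + 1) - A (i + m + 1) i + E i m := by
  have h1 : rf (((i + m + 1 : ℕ) : ℤ) - 1 - (i + 1 : ℕ)) = (m : ℚ) * (1 / (m ! : ℚ)) := by
    rw [rf_step, show ((i + m + 1 : ℕ) : ℤ) - 1 - (i + 1 : ℕ) + 1 = (m : ℤ) by push_cast; ring, rf_nat]
    push_cast; ring
  have h1' : rf (((i + m + 1 : ℕ) : ℤ) - 1 - i) = 1 / (m ! : ℚ) := by
    rw [show ((i + m + 1 : ℕ) : ℤ) - 1 - i = (m : ℤ) by push_cast; ring, rf_nat]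
  have h2 : rf (2 * ((i + m + 1 : ℕ) : ℤ) - (i + 1 : ℕ)) = 1 / ((i + 2 * m + 1)! : ℚ) := by
    rw [show 2 * ((i + m + 1 : ℕ) : ℤ) - (i + 1 : ℕ) = ((i + 2 * m + 1 : ℕ) : ℤ) by push_cast; ring, rf_nat]
  have h2' : rf (2 * ((i + m + 1 : ℕ) : ℤ) - i) = 1 / ((i + 2 * m + 2)! : ℚ) := by
    rw [show 2 * ((i + m + 1 : ℕ) : ℤ) - i = ((i + 2 * m + 2 : ℕ) : ℤ) by push_cast; ring, rf_nat]
  have h3 : 4 * (i + m + 1) - 1 - 3 * (i + 1) = i + 4 * m := by omega
  have h3' : 4 * (i + m + 1) - 1 - 3 * i = i + 4 * m + 3 := by omega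
  unfold t A E
  rw [h1, h1', h2, h2', h3, h3', Nat.factorial_succ (2 * i + 2 * m + 2),
    Nat.factorial_succ (i + m), Nat.factorial_succ (i + 2 * m + 1),
    Nat.factorial_succ (i + 4 * m + 2), Nat.factorial_succ (i + 4 * m + 1),
    Nat.factorial_succ (i + 4 * m), pow_succ (27 : ℚ) i]
  have z1 : (m ! : ℚ) ≠ 0 := by positivity
  have z2 : ((i + m)! : ℚ) ≠ 0 := by positivity
  have z3 : ((2 * i + 2 * m + 2)! : ℚ) ≠ 0 := by positivity
  have z4 : ((i + 2 * m + 1)! : ℚ) ≠ 0 := by positivity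
  have z5 : ((i : ℚ) + m + 1) ≠ 0 := by positivity
  have z6 : (2 * ((i : ℚ) + m + 1) + 1) ≠ 0 := by positivity
  have z7 : (2 * (i : ℚ) + 2 * m + 2 + 1) ≠ 0 := by positivity
  have z8 : ((i : ℚ) + 2 * m + 1 + 1) ≠ 0 := by positivity
  push_cast
  field_simp
  ring

theorem a_eq' (n : ℕ) (hn : 1 ≤ n) :
    a n = - A n 0 + ∑ i ∈ range n, E i (n - 1 - i) := by
  rw [a_eq n hn]
  have h : ∀ i ∈ range n, t i (n - 1 - i) = (A n (i + 1) - A n i) + E i (n - 1 - i) := by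
    intro i hi
    have hi' := Finset.mem_range.mp hi
    have := t_eq i (n - 1 - i)
    rwa [show i + (n - 1 - i) + 1 = n by omega] at this
  rw [Finset.sum_congr rfl h, Finset.sum_add_distrib, Finset.sum_range_sub (A n) n]
  have hA : A n n = 0 := by
    unfold A
    rw [rf_neg (by omega : (n : ℤ) - 1 - n < 0)]
    ring
  rw [hA]
  ring

/-- floor inequality for the terms `t` -/
theorem floor_t (q i m : ℤ) (hq : 2 ≤ q) (hi : 0 ≤ i) :
    (-1 ≤ ((i + m + 1) / q + (2 * i + 2 * m + 2) / q + (i + 4 * m) / q) -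
      ((i + m) / q + (2 * i + 2 * m + 3) / q + m / q + m / q + (i + 2 * m + 1) / q)) ∧
    (¬ q ∣ (2 * i + 2 * m + 3) →
      0 ≤ ((i + m + 1) / q + (2 * i + 2 * m + 2) / q + (i + 4 * m) / q) -
      ((i + m) / q + (2 * i + 2 * m + 3) / q + m / q + m / q + (i + 2 * m + 1) / q)) ∧
    (3 * i + 6 ≤ q →
      0 ≤ ((i + m + 1) / q + (2 * i + 2 * m + 2) / q + (i + 4 * m) / q) -
      ((i + m) / q + (2 * i + 2 * m + 3) / q + m / q + m / q + (i + 2 * m + 1) / q)) := by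
  have h0 : q ≠ 0 := by omega
  have hq0 : 0 < q := by omega
  obtain ⟨b, y, hy0, hy1, rfl⟩ : ∃ b y : ℤ, 0 ≤ y ∧ y < q ∧ i = y + q * b :=
    ⟨i / q, i % q, Int.emod_nonneg _ h0, Int.emod_lt_of_pos _ hq0, (Int.emod_add_mul_ediv i q).symm⟩
  obtain ⟨c, u, hu0, hu1, rfl⟩ : ∃ c u : ℤ, 0 ≤ u ∧ u < q ∧ m = u + q * c :=
    ⟨m / q, m % q, Int.emod_nonneg _ h0, Int.emod_lt_of_pos _ hq0, (Int.emod_add_mul_ediv m q).symm⟩
  have hdvd : (¬ q ∣ (2 * (y + q * b) + 2 * (u + q * c) + 3)) →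
      2 * y + 2 * u + 3 ≠ q * ((2 * y + 2 * u + 3) / q) := by
    intro h h2
    apply h
    refine ⟨(2 * y + 2 * u + 3) / q + 2 * b + 2 * c, ?_⟩
    linear_combination h2
  have hb : 3 * (y + q * b) + 6 ≤ q → 3 * y + 6 ≤ q := by
    intro h
    have hb0 : 0 ≤ b := by
      by_contra hneg
      have : q * b ≤ q * (-1) := mul_le_mul_of_nonneg_left (by omega) hq0.le
      omega
    have : 0 ≤ q * b := by positivity
    omega
  generalize hD : (¬ q ∣ (2 * (y + q * b) + 2 * (u + q * c) + 3)) = D at *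
  generalize hD2 : (3 * (y + q * b) + 6 ≤ q) = D2 at *
  rw [show y + q * b + (u + q * c) + 1 = (y + u + 1) + q * (b + c) by ring,
    show 2 * (y + q * b) + 2 * (u + q * c) + 2 = (2 * y + 2 * u + 2) + q * (2 * b + 2 * c) by ring,
    show y + q * b + 4 * (u + q * c) = (y + 4 * u) + q * (b + 4 * c) by ring,
    show y + q * b + (u + q * c) = (y + u) + q * (b + c) by ring,
    show 2 * (y + q * b) + 2 * (u + q * c) + 3 = (2 * y + 2 * u + 3) + q * (2 * b + 2 * c) by ring,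
    show y + q * b + 2 * (u + q * c) + 1 = (y + 2 * u + 1) + q * (b + 2 * c) by ring]
  simp only [Int.add_mul_ediv_left _ _ h0]
  rw [Int.ediv_eq_zero_of_lt hu0 hu1]
  obtain ⟨l1, u1, c1, d1⟩ := fl_spec (y + u + 1) q 0 1 hq0 (by linarith) (by linarith)
  obtain ⟨l2, u2, c2, d2⟩ := fl_spec (2 * y + 2 * u + 2) q 0 3 hq0 (by linarith) (by linarith)
  obtain ⟨l3, u3, c3, d3⟩ := fl_spec (y + 4 * u) q 0 4 hq0 (by linarith) (by linarith)
  obtain ⟨l4, u4, c4, d4⟩ := fl_spec (y + u) q 0 1 hq0 (by linarith) (by linarith)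
  obtain ⟨l5, u5, c5, d5⟩ := fl_spec (2 * y + 2 * u + 3) q 0 3 hq0 (by linarith) (by linarith)
  obtain ⟨l6, u6, c6, d6⟩ := fl_spec (y + 2 * u + 1) q 0 2 hq0 (by linarith) (by linarith)
  generalize (y + u + 1) / q = A1 at *
  generalize (2 * y + 2 * u + 2) / q = A2 at *
  generalize (y + 4 * u) / q = A3 at *
  generalize (y + u) / q = A4 at *
  generalize (2 * y + 2 * u + 3) / q = A5 at *
  generalize (y + 2 * u + 1) / q = A6 at *
  clear hD hD2
  refine ⟨?_, fun h => ?_, fun h => ?_⟩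
  · clear hdvd hb
    interval_cases A5 <;> interval_cases A2 <;> (try omega) <;> interval_cases A6 <;> (try omega) <;>
      interval_cases A4 <;> (try omega) <;>
      interval_cases A1 <;> (try omega) <;> interval_cases A3 <;> omega
  · have h3 := hdvd h
    clear hdvd hb h
    interval_cases A5 <;> interval_cases A2 <;> (try omega) <;> interval_cases A6 <;> (try omega) <;>
      interval_cases A4 <;> (try omega) <;>
      interval_cases A1 <;> (try omega) <;> interval_cases A3 <;> omega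
  · have h3 := hb h
    clear hdvd hb h
    interval_cases A5 <;> interval_cases A2 <;> (try omega) <;> interval_cases A6 <;> (try omega) <;>
      interval_cases A4 <;> (try omega) <;>
      interval_cases A1 <;> (try omega) <;> interval_cases A3 <;> omega

/-- floor inequality for the terms `E` -/
theorem floor_E (q i m : ℤ) (hq : 2 ≤ q) (h : ¬ q ∣ (i + m + 2)) :
    0 ≤ ((i + m + 1) / q + (i + 4 * m) / q) - ((i + m) / q + m / q + m / q + (i + 2 * m + 2) / q) := by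
  have h0 : q ≠ 0 := by omega
  have hq0 : 0 < q := by omega
  obtain ⟨b, y, hy0, hy1, rfl⟩ : ∃ b y : ℤ, 0 ≤ y ∧ y < q ∧ i = y + q * b :=
    ⟨i / q, i % q, Int.emod_nonneg _ h0, Int.emod_lt_of_pos _ hq0, (Int.emod_add_mul_ediv i q).symm⟩
  obtain ⟨c, u, hu0, hu1, rfl⟩ : ∃ c u : ℤ, 0 ≤ u ∧ u < q ∧ m = u + q * c :=
    ⟨m / q, m % q, Int.emod_nonneg _ h0, Int.emod_lt_of_pos _ hq0, (Int.emod_add_mul_ediv m q).symm⟩
  have hdvd : y + u + 2 ≠ q := by
    intro h2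
    apply h
    refine ⟨1 + b + c, ?_⟩
    linear_combination h2
  have hdvd2 : y + u + 2 ≠ 2 * q := by
    intro h2
    apply h
    refine ⟨2 + b + c, ?_⟩
    linear_combination h2
  clear h
  rw [show y + q * b + (u + q * c) + 1 = (y + u + 1) + q * (b + c) by ring,
    show y + q * b + 4 * (u + q * c) = (y + 4 * u) + q * (b + 4 * c) by ring,
    show y + q * b + (u + q * c) = (y + u) + q * (b + c) by ring,
    show y + q * b + 2 * (u + q * c) + 2 = (y + 2 * u + 2) + q * (b + 2 * c) by ring]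
  simp only [Int.add_mul_ediv_left _ _ h0]
  rw [Int.ediv_eq_zero_of_lt hu0 hu1]
  obtain ⟨l1, u1, c1, d1⟩ := fl_spec (y + u + 1) q 0 1 hq0 (by linarith) (by linarith)
  obtain ⟨l3, u3, c3, d3⟩ := fl_spec (y + 4 * u) q 0 4 hq0 (by linarith) (by linarith)
  obtain ⟨l4, u4, c4, d4⟩ := fl_spec (y + u) q 0 1 hq0 (by linarith) (by linarith)
  obtain ⟨l6, u6, c6, d6⟩ := fl_spec (y + 2 * u + 2) q 0 2 hq0 (by linarith) (by linarith)
  generalize (y + u + 1) / q = A1 at *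
  generalize (y + 4 * u) / q = A3 at *
  generalize (y + u) / q = A4 at *
  generalize (y + 2 * u + 2) / q = A6 at *
  interval_cases A6 <;> (try omega) <;>
      interval_cases A4 <;> (try omega) <;>
      interval_cases A1 <;> (try omega) <;> interval_cases A3 <;> omega

/-- core of `t` -/
noncomputable def tc (i m : ℕ) : ℚ :=
  ((i + m + 1)! : ℚ) * ((2 * i + 2 * m + 2)! : ℚ) * ((i + 4 * m)! : ℚ) /
    (((i + m)! : ℚ) * ((2 * i + 2 * m + 3)! : ℚ) * ((m)! : ℚ) * ((m)! : ℚ) *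
      ((i + 2 * m + 1)! : ℚ))

theorem t_eq_tc (i m : ℕ) : t i m = 27 ^ i * tc i m := rfl

theorem tc_val {p : ℕ} [Fact p.Prime] (i m : ℕ) : HasVal p (tc i m) (fun l =>
    (((i : ℤ) + m + 1) / (p : ℤ) ^ l + (2 * (i : ℤ) + 2 * m + 2) / (p : ℤ) ^ l
      + ((i : ℤ) + 4 * m) / (p : ℤ) ^ l) -
    (((i : ℤ) + m) / (p : ℤ) ^ l + (2 * (i : ℤ) + 2 * m + 3) / (p : ℤ) ^ l + (m : ℤ) / (p : ℤ) ^ l
      + (m : ℤ) / (p : ℤ) ^ l + ((i : ℤ) + 2 * m + 1) / (p : ℤ) ^ l)) := by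
  refine ((((HasVal.fac (i + m + 1)).mul (HasVal.fac (2 * i + 2 * m + 2))).mul
    (HasVal.fac (i + 4 * m))).div (((((HasVal.fac (i + m)).mul (HasVal.fac (2 * i + 2 * m + 3))).mul
    (HasVal.fac m)).mul (HasVal.fac m)).mul (HasVal.fac (i + 2 * m + 1)))).congr ?_
  intro l _
  push_cast
  ring

theorem two_le_pow {p : ℕ} (hp : p.Prime) {l : ℕ} (hl : 1 ≤ l) : (2 : ℤ) ≤ (p : ℤ) ^ l := by
  have h1 : 2 ≤ p ^ l := by
    calc 2 ≤ p := hp.two_le
      _ = p ^ 1 := (pow_one p).symm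
      _ ≤ p ^ l := Nat.pow_le_pow_right hp.pos hl
  exact_mod_cast h1

theorem t_mem {p : ℕ} [hp : Fact p.Prime] (i m : ℕ) (h : ¬ p ∣ 2 * i + 2 * m + 3) :
    t i m ∈ Zp p := by
  rw [t_eq_tc]
  refine (Zp p).mul_mem (by exact_mod_cast natCast_mem_Zp (27 ^ i)) ((tc_val i m).mem fun l hl => ?_)
  refine (floor_t ((p : ℤ) ^ l) i m (two_le_pow hp.out hl) (by positivity)).2.1 fun hc => h ?_
  have h1 : (p : ℤ) ∣ (p : ℤ) ^ l := dvd_pow_self _ (by omega)
  exact_mod_cast h1.trans hc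

theorem E_mem {p : ℕ} [hp : Fact p.Prime] (h3 : ¬ p ∣ 3) (i m : ℕ) (h : p ∣ 2 * i + 2 * m + 3) :
    E i m ∈ Zp p := by
  have hv : HasVal p (((i + m + 1)! : ℚ) * ((i + 4 * m)! : ℚ) /
      (((i + m)! : ℚ) * ((m)! : ℚ) * ((m)! : ℚ) * ((i + 2 * m + 2)! : ℚ))) (fun l =>
      (((i : ℤ) + m + 1) / (p : ℤ) ^ l + ((i : ℤ) + 4 * m) / (p : ℤ) ^ l) -
      (((i : ℤ) + m) / (p : ℤ) ^ l + (m : ℤ) / (p : ℤ) ^ l
        + (m : ℤ) / (p : ℤ) ^ l + ((i : ℤ) + 2 * m + 2) / (p : ℤ) ^ l)) := by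
    refine (((HasVal.fac (i + m + 1)).mul (HasVal.fac (i + 4 * m))).div
      ((((HasVal.fac (i + m)).mul (HasVal.fac m)).mul (HasVal.fac m)).mul
      (HasVal.fac (i + 2 * m + 2)))).congr ?_
    intro l _
    push_cast
    ring
  unfold E
  refine (Zp p).mul_mem ?_ (hv.mem fun l hl => ?_)
  · have h1 : (27 : ℚ) ^ i * (2 * (i : ℚ) + 2 * m + 5) * ((i : ℚ) + 10 * m + 2) / 3
        = ((27 ^ i * (2 * i + 2 * m + 5) * (i + 10 * m + 2) : ℕ) : ℚ) * (1 / ((3 : ℕ) : ℚ)) := by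
      push_cast; ring
    rw [h1]
    exact (Zp p).mul_mem (natCast_mem_Zp _) (inv_nat_mem_Zp h3)
  · refine floor_E ((p : ℤ) ^ l) i m (two_le_pow hp.out hl) fun hc => ?_
    have h1 : (p : ℤ) ∣ (p : ℤ) ^ l := dvd_pow_self _ (by omega)
    have h2 : p ∣ i + m + 2 := by exact_mod_cast h1.trans hc
    have h4 : p ∣ 1 := by
      have h5 : p ∣ 2 * (i + m + 2) := Dvd.dvd.mul_left h2 2
      have h6 : 2 * (i + m + 2) = (2 * i + 2 * m + 3) + 1 := by ring
      rw [h6] at h5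
      exact (Nat.dvd_add_right h).mp h5
    exact hp.out.one_lt.ne' (Nat.dvd_one.mp h4)

theorem floor_A (q k : ℤ) (hq : 2 ≤ q) :
    0 ≤ (4 * k + 4) / q - ((2 * k + 3) / q + k / q + k / q) := by
  have h0 : q ≠ 0 := by omega
  have hq0 : 0 < q := by omega
  obtain ⟨b, y, hy0, hy1, rfl⟩ : ∃ b y : ℤ, 0 ≤ y ∧ y < q ∧ k = y + q * b :=
    ⟨k / q, k % q, Int.emod_nonneg _ h0, Int.emod_lt_of_pos _ hq0, (Int.emod_add_mul_ediv k q).symm⟩
  rw [show 4 * (y + q * b) + 4 = (4 * y + 4) + q * (4 * b) by ring,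
    show 2 * (y + q * b) + 3 = (2 * y + 3) + q * (2 * b) by ring]
  simp only [Int.add_mul_ediv_left _ _ h0]
  rw [Int.ediv_eq_zero_of_lt hy0 hy1]
  obtain ⟨l1, u1, c1, d1⟩ := fl_spec (4 * y + 4) q 0 4 hq0 (by linarith) (by linarith)
  obtain ⟨l3, u3, c3, d3⟩ := fl_spec (2 * y + 3) q 0 2 hq0 (by linarith) (by linarith)
  generalize (4 * y + 4) / q = A1 at *
  generalize (2 * y + 3) / q = A3 at *
  interval_cases A1 <;> (try omega) <;> interval_cases A3 <;> omega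

theorem A_mem {p : ℕ} [hp : Fact p.Prime] (h3 : ¬ p ∣ 3) (k : ℕ) : A (k + 1) 0 ∈ Zp p := by
  have hv : HasVal p (((4 * k + 4)! : ℚ) /
      (((2 * k + 3)! : ℚ) * (k ! : ℚ) * (k ! : ℚ))) (fun l =>
      (4 * (k : ℤ) + 4) / (p : ℤ) ^ l - ((2 * (k : ℤ) + 3) / (p : ℤ) ^ l + (k : ℤ) / (p : ℤ) ^ l
        + (k : ℤ) / (p : ℤ) ^ l)) := by
    refine ((HasVal.fac (4 * k + 4)).div
      (((HasVal.fac (2 * k + 3)).mul (HasVal.fac k)).mul (HasVal.fac k))).congr ?_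
    intro l _
    push_cast
    ring
  have h1 : A (k + 1) 0 = (1 / ((3 : ℕ) : ℚ)) * (((4 * k + 4)! : ℚ) /
      (((2 * k + 3)! : ℚ) * (k ! : ℚ) * (k ! : ℚ))) := by
    have h1 : rf (((k + 1 : ℕ) : ℤ) - 1 - (0 : ℕ)) = 1 / (k ! : ℚ) := by
      rw [show ((k + 1 : ℕ) : ℤ) - 1 - (0 : ℕ) = (k : ℤ) by push_cast; ring, rf_nat]
    have h2 : rf (2 * ((k + 1 : ℕ) : ℤ) - (0 : ℕ)) = 1 / ((2 * k + 2)! : ℚ) := by
      rw [show 2 * ((k + 1 : ℕ) : ℤ) - (0 : ℕ) = ((2 * k + 2 : ℕ) : ℤ) by push_cast; ring, rf_nat]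
    unfold A
    rw [h1, h2, show 4 * (k + 1) - 1 - 3 * 0 = 4 * k + 3 by omega, Nat.factorial_succ (2 * k + 2),
      Nat.factorial_succ (4 * k + 3)]
    have z1 : (k ! : ℚ) ≠ 0 := by positivity
    have z2 : ((2 * k + 2)! : ℚ) ≠ 0 := by positivity
    have z6 : (2 * ((k : ℚ) + 1) + 1) ≠ 0 := by positivity
    have z7 : (2 * (k : ℚ) + 2 + 1) ≠ 0 := by positivity
    push_cast
    field_simp
    ring
  rw [h1]
  refine (Zp p).mul_mem (inv_nat_mem_Zp h3) (hv.mem fun l hl => ?_)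
  exact floor_A ((p : ℤ) ^ l) k (two_le_pow hp.out hl)

/-- integrality away from `3` -/
theorem a_mem {p : ℕ} [hp : Fact p.Prime] (h3 : ¬ p ∣ 3) (n : ℕ) (hn : 1 ≤ n) : a n ∈ Zp p := by
  by_cases h : p ∣ 2 * n + 1
  · rw [a_eq' n hn]
    refine (Zp p).add_mem ((Zp p).neg_mem ?_) ((Zp p).sum_mem fun i hi => ?_)
    · obtain ⟨k, rfl⟩ : ∃ k, n = k + 1 := ⟨n - 1, by omega⟩
      exact A_mem h3 k
    · have hi' := Finset.mem_range.mp hi
      refine E_mem h3 _ _ ?_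
      convert h using 1
      omega
  · rw [a_eq n hn]
    refine (Zp p).sum_mem fun i hi => t_mem _ _ ?_
    have hi' := Finset.mem_range.mp hi
    intro hc
    apply h
    convert hc using 1
    omega

local instance : Fact (Nat.Prime 3) := ⟨Nat.prime_three⟩

theorem pow_big (i l : ℕ) (hi : 1 ≤ i) (hl : 3 * i < l) : 3 * (i : ℤ) + 6 ≤ 3 ^ l := by
  have h1 : 3 ^ (3 * i + 1) ≤ 3 ^ l := Nat.pow_le_pow_right (by norm_num) (by omega)
  have h2 : 3 * i + 6 ≤ 3 ^ (3 * i + 1) := by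
    clear h1 hl
    induction i with
    | zero => omega
    | succ j ih =>
      rcases Nat.eq_zero_or_pos j with hj | hj
      · subst hj; norm_num
      · have := ih hj
        rw [show 3 * (j + 1) + 1 = (3 * j + 1) + 3 by ring, pow_add]
        omega
  have h3 : 3 * i + 6 ≤ 3 ^ l := h2.trans h1
  exact_mod_cast h3

theorem t_mem_three (i m : ℕ) (hi : 1 ≤ i) : t i m ∈ Zp 3 := by
  rw [t_eq_tc, mul_comm]
  refine (tc_val (p := 3) i m).mul_mem_of_le (3 * i) (by positivity) ?_ fun l hl => ?_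
  · rw [show (27 : ℚ) ^ i = ((3 : ℕ) : ℚ) ^ (3 * i) by
      rw [pow_mul]; norm_num, padicValRat.pow, padicValRat.self (by norm_num)]
    push_cast
    linarith
  · have hf := floor_t (((3 : ℕ) : ℤ) ^ l) i m (two_le_pow Nat.prime_three hl) (by positivity)
    by_cases hc : l ≤ 3 * i
    · rw [if_pos hc]; exact hf.1
    · rw [if_neg hc]
      have := hf.2.2 (by exact_mod_cast pow_big i l hi (by omega))
      simpa using this

theorem t_zero (m : ℕ) : t 0 m = tc 0 m := by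
  rw [t_eq_tc, pow_zero, one_mul]

/-- the first term when `2n+1` is not a power of `3` -/
theorem t_zero_mem (m : ℕ) (h : ¬ ∃ M : ℕ, 2 * m + 3 = 3 ^ M) : t 0 m ∈ Zp 3 := by
  by_cases hd : 3 ∣ 2 * m + 3
  · rw [t_zero]
    obtain ⟨L, hL⟩ : ∃ L, L = Nat.log 3 (m + 1) + 1 := ⟨_, rfl⟩
    have h1 : m + 1 < 3 ^ L := by
      rw [hL]; exact Nat.lt_pow_succ_log_self (by norm_num) _
    have h2 : 3 ^ L ≤ 3 * (m + 1) := by
      rw [hL, pow_succ, mul_comm]
      exact Nat.mul_le_mul_left 3 (Nat.pow_log_le_self 3 (by omega))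
    have hL1 : 1 ≤ L := by omega
    have hq3 : 3 ∣ 3 ^ L := dvd_pow_self 3 (by omega)
    have hqodd : (3 ^ L) % 2 = 1 := by
      have : Odd (3 ^ L) := (by decide : Odd 3).pow
      exact Nat.odd_iff.mp this
    have hne : 2 * m + 3 ≠ 3 ^ L := fun hc => h ⟨L, hc⟩
    have hL2 : 2 ≤ L := by
      by_contra hc
      have hL' : L = 1 := by omega
      rw [hL'] at h1 h2 hne
      omega
    refine (tc_val (p := 3) 0 m).mem_of_bonus L hL1 fun l hl => ?_
    have hf := floor_t (((3 : ℕ) : ℤ) ^ l) ((0 : ℕ) : ℤ) m (two_le_pow Nat.prime_three hl) (by positivity)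
    by_cases h1' : l = 1
    · subst h1'
      rw [if_pos rfl, if_neg (by omega)]
      have := hf.1
      push_cast at this ⊢
      linarith
    · rw [if_neg h1']
      have hl2 : 9 ≤ 3 ^ l := by
        calc 9 = 3 ^ 2 := by norm_num
          _ ≤ 3 ^ l := Nat.pow_le_pow_right (by norm_num) (by omega)
      by_cases h2' : l = L
      · subst h2'
        rw [if_pos rfl]
        clear hf
        obtain ⟨q, hq⟩ : ∃ q : ℕ, q = 3 ^ l := ⟨_, rfl⟩
        rw [← hq] at h1 h2 hq3 hqodd hne hl2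
        have hqz : (((3 : ℕ) : ℤ) ^ l) = (q : ℤ) := by rw [hq]; push_cast; rfl
        rw [hqz]
        have hq0 : (0 : ℤ) < q := by omega
        have e1 : ((0 : ℕ) : ℤ) + m + 1 = (m : ℤ) + 1 := by push_cast; ring
        have e2 : 2 * ((0 : ℕ) : ℤ) + 2 * m + 2 = 2 * (m : ℤ) + 2 := by push_cast; ring
        have e3 : ((0 : ℕ) : ℤ) + 4 * m = 4 * (m : ℤ) := by push_cast; ring
        have e4 : ((0 : ℕ) : ℤ) + m = (m : ℤ) := by push_cast; ring
        have e5 : 2 * ((0 : ℕ) : ℤ) + 2 * m + 3 = 2 * (m : ℤ) + 3 := by push_cast; ring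
        have e6 : ((0 : ℕ) : ℤ) + 2 * m + 1 = 2 * (m : ℤ) + 1 := by push_cast; ring
        rw [e1, e2, e3, e4, e5, e6, Int.ediv_eq_zero_of_lt (by omega : (0 : ℤ) ≤ m) (by omega),
          Int.ediv_eq_zero_of_lt (by omega : (0 : ℤ) ≤ (m : ℤ) + 1) (by omega)]
        obtain ⟨l2, u2, c2, d2⟩ := fl_spec (2 * (m : ℤ) + 2) q 0 2 hq0 (by omega) (by omega)
        obtain ⟨l3, u3, c3, d3⟩ := fl_spec (4 * (m : ℤ)) q 0 4 hq0 (by omega) (by omega)
        obtain ⟨l5, u5, c5, d5⟩ := fl_spec (2 * (m : ℤ) + 3) q 0 2 hq0 (by omega) (by omega)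
        obtain ⟨l6, u6, c6, d6⟩ := fl_spec (2 * (m : ℤ) + 1) q 0 2 hq0 (by omega) (by omega)
        generalize (2 * (m : ℤ) + 2) / q = A2 at *
        generalize (4 * (m : ℤ)) / q = A3 at *
        generalize (2 * (m : ℤ) + 3) / q = A5 at *
        generalize (2 * (m : ℤ) + 1) / q = A6 at *
        interval_cases A2 <;> interval_cases A5 <;> (try omega) <;>
          interval_cases A6 <;> (try omega) <;> interval_cases A3 <;> omega
      · rw [if_neg h2']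
        have := hf.2.2 (by
          have : (9 : ℤ) ≤ ((3 : ℕ) : ℤ) ^ l := by exact_mod_cast hl2
          push_cast at this ⊢
          linarith)
        simpa using this
  · exact t_mem 0 m (by rwa [show 2 * 0 + 2 * m + 3 = 2 * m + 3 by ring])

/-- the first term when `2n+1` is a power of `3` -/
theorem t_zero_not_mem (m M : ℕ) (h : 2 * m + 3 = 3 ^ M) : t 0 m ∉ Zp 3 := by
  rw [t_zero]
  refine (tc_val (p := 3) 0 m).not_mem_of_loss fun l hl => ?_
  have hqz : (((3 : ℕ) : ℤ) ^ l) = ((3 ^ l : ℕ) : ℤ) := by push_cast; rfl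
  rw [hqz]
  have hodd : ∀ j : ℕ, (3 ^ j) % 2 = 1 := by
    intro j
    have : Odd (3 ^ j) := (by decide : Odd 3).pow
    exact Nat.odd_iff.mp this
  have e1 : ((0 : ℕ) : ℤ) + m + 1 = (m : ℤ) + 1 := by push_cast; ring
  have e2 : 2 * ((0 : ℕ) : ℤ) + 2 * m + 2 = 2 * (m : ℤ) + 2 := by push_cast; ring
  have e3 : ((0 : ℕ) : ℤ) + 4 * m = 4 * (m : ℤ) := by push_cast; ring
  have e4 : ((0 : ℕ) : ℤ) + m = (m : ℤ) := by push_cast; ring
  have e5 : 2 * ((0 : ℕ) : ℤ) + 2 * m + 3 = 2 * (m : ℤ) + 3 := by push_cast; ring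
  have e6 : ((0 : ℕ) : ℤ) + 2 * m + 1 = 2 * (m : ℤ) + 1 := by push_cast; ring
  rw [e1, e2, e3, e4, e5, e6]
  rcases lt_or_ge M l with hlt | hge
  · -- `q > 2n+1`: all floors vanish
    have hq : 3 * 3 ^ M ≤ 3 ^ l := by
      calc 3 * 3 ^ M = 3 ^ (M + 1) := by rw [pow_succ]; ring
        _ ≤ 3 ^ l := Nat.pow_le_pow_right (by norm_num) (by omega)
    have hl1 : l ≠ 1 := by
      rintro rfl
      have : M = 0 := by omega
      subst this
      omega
    rw [if_neg hl1]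
    generalize 3 ^ l = q at *
    rw [Int.ediv_eq_zero_of_lt (by omega : (0 : ℤ) ≤ (m : ℤ) + 1) (by omega),
      Int.ediv_eq_zero_of_lt (by omega : (0 : ℤ) ≤ 2 * (m : ℤ) + 2) (by omega),
      Int.ediv_eq_zero_of_lt (by omega : (0 : ℤ) ≤ 4 * (m : ℤ)) (by omega),
      Int.ediv_eq_zero_of_lt (by omega : (0 : ℤ) ≤ (m : ℤ)) (by omega),
      Int.ediv_eq_zero_of_lt (by omega : (0 : ℤ) ≤ 2 * (m : ℤ) + 3) (by omega),
      Int.ediv_eq_zero_of_lt (by omega : (0 : ℤ) ≤ 2 * (m : ℤ) + 1) (by omega)]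
    norm_num
  · -- `q ∣ 2n+1`
    obtain ⟨j, rfl⟩ : ∃ j, M = l + j := ⟨M - l, by omega⟩
    have hq3 : 3 ≤ 3 ^ l := by
      calc 3 = 3 ^ 1 := by norm_num
        _ ≤ 3 ^ l := Nat.pow_le_pow_right (by norm_num) hl
    have hq9 : l ≠ 1 → 9 ≤ 3 ^ l := by
      intro hne
      calc 9 = 3 ^ 2 := by norm_num
        _ ≤ 3 ^ l := Nat.pow_le_pow_right (by norm_num) (by omega)
    have hql : l = 1 → 3 ^ l = 3 := by
      rintro rfl; norm_num
    have hqo := hodd l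
    obtain ⟨κ, hκ⟩ : ∃ κ, 3 ^ j = 2 * κ + 1 := ⟨3 ^ j / 2, by have := hodd j; omega⟩
    rw [pow_add, hκ] at h
    generalize 3 ^ l = q at *
    obtain ⟨r, rfl⟩ : ∃ r, q = 2 * r + 3 := ⟨(q - 3) / 2, by omega⟩
    have hm : m = r + (2 * r + 3) * κ := by nlinarith
    subst hm
    have h0 : ((2 * r + 3 : ℕ) : ℤ) ≠ 0 := by positivity
    push_cast at h0 ⊢
    rw [show (r : ℤ) + (2 * r + 3) * κ + 1 = (r + 1) + (2 * r + 3) * κ by ring,
      show 2 * ((r : ℤ) + (2 * r + 3) * κ) + 2 = (2 * r + 2) + (2 * r + 3) * (2 * κ) by ring,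
      show 4 * ((r : ℤ) + (2 * r + 3) * κ) = 4 * r + (2 * r + 3) * (4 * κ) by ring,
      show 2 * ((r : ℤ) + (2 * r + 3) * κ) + 3 = 0 + (2 * r + 3) * (2 * κ + 1) by ring,
      show 2 * ((r : ℤ) + (2 * r + 3) * κ) + 1 = (2 * r + 1) + (2 * r + 3) * (2 * κ) by ring]
    simp only [Int.add_mul_ediv_left _ _ h0]
    rw [Int.ediv_eq_zero_of_lt (by omega : (0 : ℤ) ≤ (r : ℤ) + 1) (by omega),
      Int.ediv_eq_zero_of_lt (by omega : (0 : ℤ) ≤ 2 * (r : ℤ) + 2) (by omega),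
      Int.ediv_eq_zero_of_lt (by omega : (0 : ℤ) ≤ (r : ℤ)) (by omega),
      Int.ediv_eq_zero_of_lt (by omega : (0 : ℤ) ≤ (0 : ℤ)) (by omega),
      Int.ediv_eq_zero_of_lt (by omega : (0 : ℤ) ≤ 2 * (r : ℤ) + 1) (by omega)]
    by_cases hl1 : l = 1
    · have := hql hl1
      have hr : r = 0 := by omega
      subst hr
      rw [if_pos hl1]
      norm_num
      ring_nf
      rfl
    · have h9 := hq9 hl1
      rw [if_neg hl1]
      have h4 : (4 * (r : ℤ)) / (2 * r + 3) = 1 := by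
        rw [show 4 * (r : ℤ) = (2 * r - 3) + (2 * r + 3) * 1 by ring,
          Int.add_mul_ediv_left _ _ h0, Int.ediv_eq_zero_of_lt (by omega) (by omega)]
        norm_num
      rw [h4]
      ring_nf
      rfl

/-- Q1. For every positive `n`: if `2n+1` is not a power of `3` then `a_n` is an integer;
otherwise `3 a_n` is an integer not divisible by `3`. -/
theorem result (n : ℕ) (hn : 1 ≤ n) :
    ((¬ ∃ M : ℕ, 2 * n + 1 = 3 ^ M) → ∃ z : ℤ, a n = z) ∧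
    ((∃ M : ℕ, 2 * n + 1 = 3 ^ M) → ∃ z : ℤ, 3 * a n = z ∧ ¬ (3 : ℤ) ∣ z) := by
  obtain ⟨m, rfl⟩ : ∃ m, n = m + 1 := ⟨n - 1, by omega⟩
  have hsum : a (m + 1) = t 0 m + ∑ i ∈ range m, t (i + 1) (m + 1 - 1 - (i + 1)) := by
    rw [a_eq (m + 1) hn, Finset.sum_range_succ']
    rw [add_comm]
    congr 1
  have htail : ∑ i ∈ range m, t (i + 1) (m + 1 - 1 - (i + 1)) ∈ Zp 3 :=
    (Zp 3).sum_mem fun i _ => t_mem_three _ _ (by omega)
  have hother : ∀ (p : ℕ) [hp : Fact p.Prime], p ≠ 3 → a (m + 1) ∈ Zp p := by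
    intro p hp hne
    refine a_mem (fun hd => hne ?_) _ hn
    exact (Nat.prime_dvd_prime_iff_eq hp.out Nat.prime_three).mp hd
  constructor
  · intro h
    refine int_of_forall_mem fun p hp => ?_
    by_cases hp3 : p = 3
    · subst hp3
      rw [hsum]
      refine (Zp 3).add_mem (t_zero_mem m ?_) htail
      rintro ⟨M, hM⟩
      exact h ⟨M, by rw [← hM]; ring⟩
    · exact hother p hp3
  · rintro ⟨M, hM⟩
    have hnot : a (m + 1) ∉ Zp 3 := by
      intro hc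
      apply t_zero_not_mem m M (by rw [← hM]; ring)
      have : t 0 m = a (m + 1) - ∑ i ∈ range m, t (i + 1) (m + 1 - 1 - (i + 1)) := by
        rw [hsum]; ring
      rw [this]
      exact (Zp 3).sub_mem hc htail
    have hint : ∃ z : ℤ, 3 * a (m + 1) = z := by
      refine int_of_forall_mem fun p hp => ?_
      by_cases hp3 : p = 3
      · subst hp3
        rw [hsum, mul_add]
        refine (Zp 3).add_mem ?_ ((Zp 3).mul_mem (by exact_mod_cast natCast_mem_Zp 3) htail)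
        rw [t_zero, mul_comm]
        refine (tc_val (p := 3) 0 m).mul_mem_of_le 1 (by norm_num) ?_ fun l hl => ?_
        · have : padicValRat 3 (3 : ℚ) = 1 := by
            have := padicValRat.self (p := 3) (by norm_num)
            exact_mod_cast this
          rw [this]; norm_num
        · have hf := floor_t (((3 : ℕ) : ℤ) ^ l) ((0 : ℕ) : ℤ) m (two_le_pow Nat.prime_three hl)
            (by positivity)
          by_cases hc : l ≤ 1
          · rw [if_pos hc]; exact hf.1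
          · rw [if_neg hc]
            have hl2 : 9 ≤ 3 ^ l := by
              calc 9 = 3 ^ 2 := by norm_num
                _ ≤ 3 ^ l := Nat.pow_le_pow_right (by norm_num) (by omega)
            have := hf.2.2 (by
              have : (9 : ℤ) ≤ ((3 : ℕ) : ℤ) ^ l := by exact_mod_cast hl2
              push_cast at this ⊢
              linarith)
            simpa using this
      · exact (Zp p).mul_mem (by exact_mod_cast natCast_mem_Zp 3) (hother p hp3)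
    obtain ⟨z, hz⟩ := hint
    exact ⟨z, hz, by exact_mod_cast not_dvd_of_not_mem hnot (by exact_mod_cast hz)⟩

end Pool.Agent.Results.MP_1a5975_nt.Integrality
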